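import Pool.Agent.Helper41.HLM

/-!
# MP_5bfbcb_an, Q1: zero sets of half-lacunary Fourier series

A nonzero half-lacunary Fourier series vanishes only on a null set: Q1 has a positive answer, for
every Hadamard lacunary sequence of negative frequencies and all square summable coefficients.
The definitions are in `Pool/Agent/Helper41/HLDefs.lean`.
-/

set_option autoImplicit false

namespace Pool.Agent.Results.MP_5bfbcb_an.ZeroSet

open MeasureTheory AddCircle Filter Topology
open Pool.Agent.Helper41.HL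

/-- Let `n` be a Hadamard lacunary sequence of negative integers and `a ∈ ℓ²(ℤ)`. The series
`∑ k, a (n k) e(n k θ)` and `∑ m ≥ 0, a m e(m θ)` converge in `L²(ℝ/ℤ)`, and if `p` and `h` are
their sums and `g = p + h` is not the zero element of `L²(ℝ/ℤ)`, then the set
`{θ | g θ = 0}` has measure zero. -/
theorem result (n : ℕ → ℤ) (hn : HadamardLacunary n) (a : ℤ → ℂ)
    (ha : Summable (fun m : ℤ => ‖a m‖ ^ 2)) :
    (∃ p, IsL2Sum n a p) ∧ (∃ h, IsL2Sum (fun m : ℕ => (m : ℤ)) a h) ∧
    ∀ p h : AddCircle (1 : ℝ) → ℂ, IsL2Sum n a p → IsL2Sum (fun m : ℕ => (m : ℤ)) a h →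
      ¬ (∀ᵐ θ ∂haarAddCircle, p θ + h θ = 0) →
      haarAddCircle {θ : AddCircle (1 : ℝ) | p θ + h θ = 0} = 0 := by
  obtain ⟨hneg, hlim⟩ := hn
  -- extract a uniform ratio
  obtain ⟨q, hq1, hq⟩ := EReal.lt_iff_exists_real_btwn.mp hlim
  have hq1' : 1 < q := by exact_mod_cast hq1
  have hev := eventually_lt_of_lt_liminf hq
  obtain ⟨k₀, hk₀⟩ := eventually_atTop.mp hev
  have hratio : ∀ k, k₀ ≤ k → q ≤ (n (k + 1) : ℝ) / (n k : ℝ) := by
    intro k hk
    have h1 := hk₀ k hk
    have h2 : q < (n (k + 1) : ℝ) / (n k : ℝ) := by exact_mod_cast h1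
    exact h2.le
  obtain ⟨B, S, s₀, hB, hL, hL0, hS⟩ := seq_struct n hneg q hq1' k₀ hratio
  -- injectivity of the tail
  have hstrict : ∀ k, k₀ ≤ k → n (k + 1) < n k := by
    intro k hk
    have h1 := hratio k hk
    have h2 : (n k : ℝ) < 0 := by exact_mod_cast hneg k
    rw [le_div_iff_of_neg h2] at h1
    have h3 : (n (k + 1) : ℝ) < (n k : ℝ) := by nlinarith
    exact_mod_cast h3
  have hinj : Function.Injective (fun k : ℕ => n (k + k₀)) := by
    apply StrictAnti.injective
    apply strictAnti_nat_of_succ_lt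
    intro k
    have := hstrict (k + k₀) (by omega)
    have h1 : k + 1 + k₀ = k + k₀ + 1 := by ring
    rw [h1]
    exact this
  have hs1 : Summable (fun k : ℕ => a (n k) • fourierLp (T := (1 : ℝ)) 2 (n k)) :=
    (summable_nat_add_iff k₀).mp (summable_inj (fun k : ℕ => n (k + k₀)) hinj a ha)
  have hs2 : Summable (fun m : ℕ => a (m : ℤ) • fourierLp (T := (1 : ℝ)) 2 (m : ℤ)) :=
    summable_inj (fun m : ℕ => (m : ℤ)) (fun x y h => by simpa using h) a ha
  refine ⟨exists_isL2Sum n a hs1, exists_isL2Sum (fun m : ℕ => (m : ℤ)) a hs2, ?_⟩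
  intro p h hp hh hne
  by_contra hpos
  apply hne
  have hg : MemLp (fun θ => p θ + h θ) 2 mu := hp.1.add hh.1
  -- a strongly measurable representative
  obtain ⟨g, hgm, hgae⟩ := hg.aestronglyMeasurable
  have hgL : MemLp g 2 mu := hg.ae_eq hgae
  have hcoef : ∀ j, fourierCoeff g j = fourierCoeff (fun θ => p θ + h θ) j := by
    intro j
    rw [fourierCoeff_congr_ae hgae]
  have hadd : ∀ j, fourierCoeff (fun θ => p θ + h θ) j = fourierCoeff p j + fourierCoeff h j := by
    intro j
    have h1 := fourierCoeff.add (hp.1.integrable (by norm_num)) (hh.1.integrable (by norm_num))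
    have h2 := congrFun h1 j
    rw [Pi.add_apply] at h2
    exact h2
  have hG0 : ∀ s : ℕ, s₀ < s → s ∉ S → fourierCoeff g (-(s : ℤ)) = 0 := by
    intro s hs hsS
    rw [hcoef, hadd, coeff_zero_of_isL2Sum n a p hp _ (hS s hs hsS),
      coeff_zero_of_isL2Sum (fun m : ℕ => (m : ℤ)) a h hh _ (by
        intro m
        omega), add_zero]
  have hpos' : mu {t | g t = 0} ≠ 0 := by
    intro h0
    apply hpos
    rw [← h0]
    apply measure_congr
    filter_upwards [hgae] with t ht
    have : (p t + h t = 0) = (g t = 0) := by rw [ht]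
    exact this
  have hcore := core B hB S s₀ hL hL0 g hgm hgL hG0 hpos'
  have hz := ae_zero_of_coeff g hgL hcore
  filter_upwards [hgae, hz] with t h1 h2
  rw [h1, h2]
  rfl

end Pool.Agent.Results.MP_5bfbcb_an.ZeroSet
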